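import Pool.Agent.Helper54_BED.Stmt

/-!
# Band edge delocalization: module LAWT (the law of the potential on the torus)
-/

set_option autoImplicit false

open MeasureTheory ProbabilityTheory

open scoped ENNReal NNReal BigOperators

noncomputable section

namespace Pool.Agent.BED.H73

open Pool.Agent.Anderson Pool.Agent.Loc Pool.Agent.BED

universe u

theorem rep_injective {d M : ℕ} : Function.Injective (rep : Tor d M → Site d) := by
  intro x y h
  funext i
  have := congrFun h i
  exact (ZMod.valMinAbs_inj).1 this

/-- Module LAWT. -/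
theorem lawT : LawStmt.{u} := by
  intro d M _ Ω _ P _ ξ hm hlaw hind s v hv
  have h1 : iIndepFun (fun x : Tor d M => ξ (rep x)) P := hind.precomp rep_injective
  have h2 : iIndepFun (fun x : Tor d M => fun ω => s * ξ (rep x) ω) P :=
    h1.comp (fun _ => fun t : ℝ => s * t) (fun _ => measurable_const_mul s)
  have h3 := (iIndepFun_iff_map_fun_eq_pi_map
    (fun x : Tor d M => ((hm (rep x)).const_mul s).aemeasurable)).1 h2
  rw [h3]
  unfold gau
  congr 1
  funext x
  have e : (fun ω => s * ξ (rep x) ω) = (fun t : ℝ => s * t) ∘ ξ (rep x) := rfl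
  rw [e, ← Measure.map_map (measurable_const_mul s) (hm (rep x)), hlaw,
    gaussianReal_map_const_mul, mul_zero]
  congr 1
  ext
  rw [mul_one, hv]
  rfl

end Pool.Agent.BED.H73
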