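import Pool.Agent.Helper54_BED.Stmt

/-!
# Band edge delocalization: tents
-/

set_option autoImplicit false

open scoped BigOperators

noncomputable section

namespace Pool.Agent.BED.H73

open Pool.Agent.Anderson Pool.Agent.Loc Pool.Agent.BED

variable {d : ℕ}

/-- the tent of height `k` -/
def tent (k : ℕ) (s : ℤ) : ℝ := max ((k : ℝ) - |(s : ℝ)|) 0

theorem tent_nonneg (k : ℕ) (s : ℤ) : 0 ≤ tent k s := le_max_right _ _

theorem tent_zero (k : ℕ) : tent k 0 = k := by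
  unfold tent
  simp

theorem tent_eq_zero {k : ℕ} {s : ℤ} (h : (k : ℤ) ≤ |s|) : tent k s = 0 := by
  unfold tent
  apply max_eq_right
  have : (k : ℝ) ≤ |(s : ℝ)| := by exact_mod_cast h
  linarith

theorem tent_ge (k : ℕ) (s : ℤ) : (k : ℝ) - |(s : ℝ)| ≤ tent k s := le_max_left _ _

theorem tent_step (k : ℕ) (s t : ℤ) (h : |s - t| ≤ 1) : (tent k s - tent k t) ^ 2 ≤ 1 := by
  have h1 : |tent k s - tent k t| ≤ 1 := by
    unfold tent
    refine (abs_max_sub_max_le_abs _ _ _).trans ?_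
    have e : ((k : ℝ) - |(s : ℝ)|) - ((k : ℝ) - |(t : ℝ)|) = |(t : ℝ)| - |(s : ℝ)| := by ring
    rw [e]
    refine (abs_abs_sub_abs_le_abs_sub _ _).trans ?_
    rw [abs_sub_comm]
    exact_mod_cast h
  rw [← sq_abs]
  have := abs_nonneg (tent k s - tent k t)
  nlinarith

theorem sum_tent_sq (k : ℕ) (c : ℤ) :
    (k : ℝ) ^ 3 / 4 ≤ ∑ s ∈ Finset.Icc (c - k) (c + k), tent k (s - c) ^ 2 := by
  have h1 : ∑ s ∈ Finset.Icc (c - (k / 2 : ℕ)) (c + (k / 2 : ℕ)), ((k : ℝ) / 2) ^ 2 ≤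
      ∑ s ∈ Finset.Icc (c - (k / 2 : ℕ)) (c + (k / 2 : ℕ)), tent k (s - c) ^ 2 := by
    refine Finset.sum_le_sum fun s hs => ?_
    rw [Finset.mem_Icc] at hs
    have h2 : |s - c| ≤ ((k / 2 : ℕ) : ℤ) := abs_le.2 ⟨by linarith [hs.1], by linarith [hs.2]⟩
    have h3 : |((s - c : ℤ) : ℝ)| ≤ ((k / 2 : ℕ) : ℝ) := by
      have h3' : ((|s - c| : ℤ) : ℝ) ≤ (((k / 2 : ℕ) : ℤ) : ℝ) := Int.cast_le.2 h2
      rw [Int.cast_abs, Int.cast_natCast] at h3'
      exact h3'
    have h4 : ((k / 2 : ℕ) : ℝ) ≤ (k : ℝ) / 2 := by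
      have := @Nat.cast_div_le ℝ _ _ _ k 2
      simpa using this
    have h5 := tent_ge k (s - c)
    have h6 : (k : ℝ) / 2 ≤ tent k (s - c) := by linarith
    have h7 : (0 : ℝ) ≤ (k : ℝ) / 2 := by positivity
    gcongr
  have h8 : ∑ s ∈ Finset.Icc (c - (k / 2 : ℕ)) (c + (k / 2 : ℕ)), tent k (s - c) ^ 2 ≤
      ∑ s ∈ Finset.Icc (c - k) (c + k), tent k (s - c) ^ 2 := by
    refine Finset.sum_le_sum_of_subset_of_nonneg ?_ fun _ _ _ => sq_nonneg _
    refine Finset.Icc_subset_Icc ?_ ?_ <;> push_cast <;> omega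
  refine le_trans ?_ (h1.trans h8)
  rw [Finset.sum_const, Int.card_Icc, nsmul_eq_mul]
  have h9 : (c + (k / 2 : ℕ) + 1 - (c - (k / 2 : ℕ))).toNat = 2 * (k / 2) + 1 := by omega
  rw [h9]
  have h10 : (k : ℝ) ≤ ((2 * (k / 2) + 1 : ℕ) : ℝ) := by
    exact_mod_cast (by omega : k ≤ 2 * (k / 2) + 1)
  have h11 : (0 : ℝ) ≤ ((k : ℝ) / 2) ^ 2 := by positivity
  calc (k : ℝ) ^ 3 / 4 = k * ((k : ℝ) / 2) ^ 2 := by ring
    _ ≤ _ := mul_le_mul_of_nonneg_right h10 h11

theorem sum_tent_diff (k : ℕ) (hk : 1 ≤ k) (c : ℤ) :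
    ∑ s ∈ Finset.Icc (c - k) (c + k), (tent k (s + 1 - c) - tent k (s - c)) ^ 2 ≤
      (12 / (k : ℝ) ^ 2) * ∑ s ∈ Finset.Icc (c - k) (c + k), tent k (s - c) ^ 2 := by
  have h1 : ∑ s ∈ Finset.Icc (c - k) (c + k), (tent k (s + 1 - c) - tent k (s - c)) ^ 2 ≤
      3 * k := by
    calc ∑ s ∈ Finset.Icc (c - k) (c + k), (tent k (s + 1 - c) - tent k (s - c)) ^ 2
        ≤ ∑ s ∈ Finset.Icc (c - k) (c + k), (1 : ℝ) := Finset.sum_le_sum fun s _ =>
          tent_step k _ _ (by rw [show s + 1 - c - (s - c) = 1 by ring]; simp)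
      _ = ((2 * k + 1 : ℕ) : ℝ) := by
          rw [Finset.sum_const, Int.card_Icc, nsmul_eq_mul, mul_one]
          congr 1
          omega
      _ ≤ 3 * k := by exact_mod_cast (by omega : 2 * k + 1 ≤ 3 * k)
  have h2 := sum_tent_sq k c
  have hk' : (0 : ℝ) < k := by exact_mod_cast hk
  calc _ ≤ 3 * (k : ℝ) := h1
    _ = (12 / (k : ℝ) ^ 2) * ((k : ℝ) ^ 3 / 4) := by field_simp; ring
    _ ≤ _ := mul_le_mul_of_nonneg_left h2 (by positivity)

/-- the product of tents with centre `c` -/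
def chi (k : ℕ) (c y : Site d) : ℝ := ∏ i, tent k (y i - c i)

theorem chi_self {k : ℕ} (hk : 1 ≤ k) (c : Site d) : chi k c c ≠ 0 := by
  unfold chi
  rw [Finset.prod_ne_zero_iff]
  intro i _
  rw [sub_self, tent_zero]
  exact_mod_cast (by omega : k ≠ 0)

theorem lt_of_chi {k : ℕ} {c y : Site d} (h : chi k c y ≠ 0) (i : Fin d) : |y i - c i| < k := by
  by_contra hcon
  exact h (Finset.prod_eq_zero (Finset.mem_univ i) (tent_eq_zero (not_lt.1 hcon)))

theorem box_eq_pi (c : Site d) (k : ℕ) :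
    box c k = Fintype.piFinset fun i => Finset.Icc (c i - k) (c i + k) := by
  ext y
  rw [box, Finset.mem_Icc, Fintype.mem_piFinset]
  constructor
  · intro h i
    exact Finset.mem_Icc.2 ⟨h.1 i, h.2 i⟩
  · intro h
    exact ⟨fun i => (Finset.mem_Icc.1 (h i)).1, fun i => (Finset.mem_Icc.1 (h i)).2⟩

theorem sum_chi_diff (k : ℕ) (hk : 1 ≤ k) (c : Site d) (i : Fin d) :
    ∑ y ∈ box c k, (chi k c (y + Pi.single i 1) - chi k c y) ^ 2 ≤
      (12 / (k : ℝ) ^ 2) * ∑ y ∈ box c k, chi k c y ^ 2 := by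
  classical
  set a : Fin d → ℤ → ℝ := fun j s =>
    if j = i then (tent k (s + 1 - c j) - tent k (s - c j)) ^ 2 else tent k (s - c j) ^ 2 with ha
  have h1 : ∀ y : Site d, (chi k c (y + Pi.single i 1) - chi k c y) ^ 2 = ∏ j, a j (y j) := by
    intro y
    have e1 : chi k c (y + Pi.single i 1) =
        tent k (y i + 1 - c i) * ∏ j ∈ Finset.univ.erase i, tent k (y j - c j) := by
      unfold chi
      rw [← Finset.mul_prod_erase Finset.univ _ (Finset.mem_univ i)]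
      congr 1
      · simp
      · refine Finset.prod_congr rfl fun j hj => ?_
        have : j ≠ i := (Finset.mem_erase.1 hj).1
        simp [this]
    have e2 : chi k c y =
        tent k (y i - c i) * ∏ j ∈ Finset.univ.erase i, tent k (y j - c j) := by
      unfold chi
      rw [← Finset.mul_prod_erase Finset.univ _ (Finset.mem_univ i)]
    have e3 : ∏ j, a j (y j) = (tent k (y i + 1 - c i) - tent k (y i - c i)) ^ 2 *
        ∏ j ∈ Finset.univ.erase i, tent k (y j - c j) ^ 2 := by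
      rw [← Finset.mul_prod_erase Finset.univ _ (Finset.mem_univ i)]
      congr 1
      · simp [ha]
      · refine Finset.prod_congr rfl fun j hj => ?_
        have : j ≠ i := (Finset.mem_erase.1 hj).1
        simp [ha, this]
    rw [e1, e2, e3, Finset.prod_pow]
    ring
  have h2 : ∀ y : Site d, chi k c y ^ 2 = ∏ j, tent k (y j - c j) ^ 2 := by
    intro y
    unfold chi
    rw [Finset.prod_pow]
  simp only [h1, h2]
  rw [box_eq_pi, ← Finset.prod_univ_sum (fun j => Finset.Icc (c j - k) (c j + k)) a,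
    ← Finset.prod_univ_sum (fun j => Finset.Icc (c j - k) (c j + k))
      (fun j s => tent k (s - c j) ^ 2),
    ← Finset.mul_prod_erase Finset.univ _ (Finset.mem_univ i),
    ← Finset.mul_prod_erase Finset.univ
      (fun j => ∑ s ∈ Finset.Icc (c j - k) (c j + k), tent k (s - c j) ^ 2) (Finset.mem_univ i),
    ← mul_assoc]
  have h3 : ∏ j ∈ Finset.univ.erase i, ∑ s ∈ Finset.Icc (c j - k) (c j + k), a j s =
      ∏ j ∈ Finset.univ.erase i, ∑ s ∈ Finset.Icc (c j - k) (c j + k), tent k (s - c j) ^ 2 := by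
    refine Finset.prod_congr rfl fun j hj => Finset.sum_congr rfl fun s _ => ?_
    have : j ≠ i := (Finset.mem_erase.1 hj).1
    simp [ha, this]
  rw [h3]
  refine mul_le_mul_of_nonneg_right ?_ (Finset.prod_nonneg fun j _ =>
    Finset.sum_nonneg fun s _ => sq_nonneg _)
  have h4 := sum_tent_diff k hk (c i)
  have h5 : ∑ s ∈ Finset.Icc (c i - k) (c i + k), a i s =
      ∑ s ∈ Finset.Icc (c i - k) (c i + k), (tent k (s + 1 - c i) - tent k (s - c i)) ^ 2 := by
    refine Finset.sum_congr rfl fun s _ => ?_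
    simp [ha]
  rw [h5]
  exact h4

end Pool.Agent.BED.H73
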