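import Pool.Agent.Helper73_BED.Edge
import Pool.Agent.Helper73_BED.Tent

/-!
# Band edge delocalization: module COUNT (many eigenvalues near the top in boxes)
-/

set_option autoImplicit false

open scoped BigOperators

noncomputable section

namespace Pool.Agent.BED.H73

open Matrix Pool.Agent.Anderson Pool.Agent.Loc Pool.Agent.BED

variable {d M : ℕ}

/-- Sums over the torus of functions supported in a small set. -/
theorem sum_rep [NeZero M] (S : Finset (Site d)) (hS : ∀ y ∈ S, ∀ i, 2 * |y i| < (M : ℤ))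
    (G : Site d → ℝ) (hG : ∀ y, y ∉ S → G y = 0) : ∑ x : Tor d M, G (rep x) = ∑ y ∈ S, G y := by
  have h2 : ∑ x : Tor d M, G (rep x) = ∑ y ∈ Finset.univ.image (rep : Tor d M → Site d), G y := by
    rw [Finset.sum_image (fun x _ y _ h => rep_inj h)]
  rw [h2]
  symm
  refine Finset.sum_subset (fun y hy => ?_) fun y _ hy => hG y hy
  rw [Finset.mem_image]
  exact ⟨fun i => ((y i : ℤ) : ZMod M), Finset.mem_univ _, rep_coe y (hS y hy)⟩

/-- The energy on the torus of a tent function. -/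
theorem energy_chi [NeZero M] (k : ℕ) (hk : 1 ≤ k) (c : Site d)
    (hc : ∀ i, 2 * (|c i| + k + 1) < (M : ℤ)) :
    energy (fun x : Tor d M => chi k c (rep x)) ≤
      (12 * d / (k : ℝ) ^ 2) * ∑ x : Tor d M, chi k c (rep x) ^ 2 := by
  have habs : ∀ y : Site d, ∀ i, |y i - c i| ≤ k → |y i| ≤ |c i| + k := by
    intro y i h
    calc |y i| = |c i + (y i - c i)| := by ring_nf
      _ ≤ |c i| + |y i - c i| := abs_add_le _ _
      _ ≤ _ := by linarith
  have hbox : ∀ y ∈ box c k, ∀ i, 2 * |y i| < (M : ℤ) := by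
    intro y hy i
    rw [mem_box, sd_comm] at hy
    have h1 := habs y i (sd_le_iff.1 hy i)
    have h2 := hc i
    linarith
  have hchi0 : ∀ y, y ∉ box c k → chi k c y = 0 := by
    intro y hy
    by_contra hne
    apply hy
    rw [mem_box, sd_comm, sd_le_iff]
    intro i
    have := lt_of_chi hne i
    linarith
  have hdiff0 : ∀ i y, y ∉ box c k →
      (chi k c (y + Pi.single i 1) - chi k c y) ^ 2 = 0 := by
    intro i y hy
    have h2 : chi k c (y + Pi.single i 1) = 0 := by
      by_contra hne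
      apply hy
      rw [mem_box, sd_comm, sd_le_iff]
      intro j
      have h1 := lt_of_chi hne j
      rw [Pi.add_apply] at h1
      have h3 : |(Pi.single i 1 : Site d) j| ≤ 1 := by
        by_cases h : j = i
        · subst h; simp
        · simp [h]
      have h4 : |y j - c j| ≤ |y j + (Pi.single i 1 : Site d) j - c j| +
          |(Pi.single i 1 : Site d) j| := by
        calc |y j - c j| = |(y j + (Pi.single i 1 : Site d) j - c j) -
              (Pi.single i 1 : Site d) j| := by ring_nf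
          _ ≤ _ := abs_sub _ _
      have h5 : |y j + (Pi.single i 1 : Site d) j - c j| + 1 ≤ k := h1
      linarith
    rw [h2, hchi0 y hy]; ring
  have hterm : ∀ (x : Tor d M) (i : Fin d),
      (chi k c (rep (x + ev i)) - chi k c (rep x)) ^ 2 ≤
        (chi k c (rep x + Pi.single i 1) - chi k c (rep x)) ^ 2 := by
    intro x i
    by_cases h : chi k c (rep (x + ev i)) = 0 ∧ chi k c (rep x) = 0
    · rw [h.1, h.2]
      rw [sub_self, sub_zero]
      nlinarith [sq_nonneg (chi k c (rep x + Pi.single i 1))]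
    · have hr : rep (x + ev i) = rep x + Pi.single i 1 := by
        by_cases h2 : chi k c (rep x) = 0
        · have h1 : chi k c (rep (x + ev i)) ≠ 0 := fun h1 => h ⟨h1, h2⟩
          have h3 := rep_sub_ev (x + ev i) (fun j => by
            have h4 := habs _ j (lt_of_chi h1 j).le
            have h5 := hc j
            linarith) i
          rw [add_sub_cancel_right] at h3
          rw [h3, sub_add_cancel]
        · exact rep_add_ev x (fun j => by
            have h4 := habs _ j (lt_of_chi h2 j).le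
            have h5 := hc j
            linarith) i
      rw [hr]
  have hE : energy (fun x : Tor d M => chi k c (rep x)) ≤
      ∑ i : Fin d, ∑ y ∈ box c k, (chi k c (y + Pi.single i 1) - chi k c y) ^ 2 := by
    unfold energy
    rw [Finset.sum_comm]
    refine Finset.sum_le_sum fun i _ => ?_
    rw [← sum_rep (M := M) (box c k) hbox
      (fun y => (chi k c (y + Pi.single i 1) - chi k c y) ^ 2) (hdiff0 i)]
    exact Finset.sum_le_sum fun x _ => hterm x i
  refine hE.trans ?_
  rw [sum_rep (M := M) (box c k) hbox (fun y => chi k c y ^ 2)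
    (fun y hy => by simp [hchi0 y hy])]
  calc ∑ i : Fin d, ∑ y ∈ box c k, (chi k c (y + Pi.single i 1) - chi k c y) ^ 2
      ≤ ∑ _i : Fin d, (12 / (k : ℝ) ^ 2) * ∑ y ∈ box c k, chi k c y ^ 2 :=
        Finset.sum_le_sum fun i _ => sum_chi_diff k hk c i
    _ = _ := by
      rw [Finset.sum_const, Finset.card_univ, Fintype.card_fin, nsmul_eq_mul]; ring

/-- The quadratic form of the test function. -/
theorem form_test [NeZero M] (k : ℕ) (hk : 1 ≤ k) (c : Site d)
    (hc : ∀ i, 2 * (|c i| + k + 1) < (M : ℤ)) {z μ lam : ℝ} {V : Tor d M → ℝ} (hμ : 0 < μ)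
    (hV : Flat z μ V) (h10 : 10 / μ ≤ lam) (hlk : 26 * d ≤ lam * (k : ℝ) ^ 2) :
    ∑ x, (DD z V x * chi k c (rep x)) * (AM z V *ᵥ fun y => DD z V y * chi k c (rep y)) x ≤
      lam * ∑ x, (DD z V x * chi k c (rep x)) ^ 2 := by
  rw [AM_doob z V (DD z V) (fun y => chi k c (rep y)), AM_DD hV.2.1]
  have hlo : ∀ x, 0.98 * μ ≤ DD z V x := fun x => by
    have := (abs_le.1 (hV.2.2 x)).1
    linarith
  have hhi : ∀ x, DD z V x ≤ 1.02 * μ := fun x => by
    have := (abs_le.1 (hV.2.2 x)).2
    linarith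
  have hk' : (0 : ℝ) < k := by exact_mod_cast hk
  have hpos : ∀ x, 0 ≤ DD z V x := fun x => (DD_pos hV.2.1 x).le
  set X : ℝ := ∑ x : Tor d M, chi k c (rep x) ^ 2 with hX
  have hX0 : 0 ≤ X := Finset.sum_nonneg fun x _ => sq_nonneg _
  have h1 : ∑ x : Tor d M, ∑ i : Fin d, DD z V x * DD z V (x + ev i) *
      (chi k c (rep (x + ev i)) - chi k c (rep x)) ^ 2 ≤
        (1.02 * μ) ^ 2 * energy (fun x : Tor d M => chi k c (rep x)) := by
    unfold energy
    rw [Finset.mul_sum]
    refine Finset.sum_le_sum fun x _ => ?_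
    rw [Finset.mul_sum]
    refine Finset.sum_le_sum fun i _ => ?_
    refine mul_le_mul_of_nonneg_right ?_ (sq_nonneg _)
    rw [sq]
    exact mul_le_mul (hhi x) (hhi _) (hpos _) (by positivity)
  have h2 : ∑ x : Tor d M, DD z V x * (1 : Tor d M → ℝ) x * chi k c (rep x) ^ 2 ≤
      (1.02 * μ) * X := by
    rw [hX, Finset.mul_sum]
    refine Finset.sum_le_sum fun x _ => ?_
    rw [Pi.one_apply, mul_one]
    exact mul_le_mul_of_nonneg_right (hhi x) (sq_nonneg _)
  have h3 : (0.98 * μ) ^ 2 * X ≤ ∑ x, (DD z V x * chi k c (rep x)) ^ 2 := by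
    rw [hX, Finset.mul_sum]
    refine Finset.sum_le_sum fun x _ => ?_
    rw [mul_pow (DD z V x)]
    refine mul_le_mul_of_nonneg_right ?_ (sq_nonneg _)
    exact pow_le_pow_left₀ (by positivity) (hlo x) 2
  have h4 := energy_chi (M := M) k hk c hc
  have hlam : 10 ≤ lam * μ := by
    rw [div_le_iff₀ hμ] at h10
    exact h10
  have hlam0 : 0 < lam := by
    by_contra hcon
    have : lam * μ ≤ 0 := mul_nonpos_of_nonpos_of_nonneg (not_lt.1 hcon) hμ.le
    linarith
  have h5 : 12 * (d : ℝ) / (k : ℝ) ^ 2 ≤ (12 / 26) * lam := by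
    rw [div_le_iff₀ (by positivity)]
    nlinarith
  have h6 : (1.02 * μ) ^ 2 * energy (fun x : Tor d M => chi k c (rep x)) ≤
      (1.02 * μ) ^ 2 * ((12 / 26) * lam * X) := by
    refine mul_le_mul_of_nonneg_left (h4.trans ?_) (by positivity)
    exact mul_le_mul_of_nonneg_right h5 hX0
  have h7 : (1.02 * μ) * X ≤ 0.102 * (lam * μ) * μ * X := by
    have : (0 : ℝ) ≤ μ * X := mul_nonneg hμ.le hX0
    nlinarith
  calc _ ≤ (1.02 * μ) ^ 2 * ((12 / 26) * lam * X) + 0.102 * (lam * μ) * μ * X := by linarith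
    _ = (1.02 ^ 2 * (12 / 26) + 0.102) * (lam * μ ^ 2 * X) := by ring
    _ ≤ 0.98 ^ 2 * (lam * μ ^ 2 * X) := by
        refine mul_le_mul_of_nonneg_right (by norm_num) (by positivity)
    _ = lam * ((0.98 * μ) ^ 2 * X) := by ring
    _ ≤ _ := mul_le_mul_of_nonneg_left h3 hlam0.le

/-- The class of a lattice point on the torus. -/
def cls (M : ℕ) (y : Site d) : Tor d M := fun i => ((y i : ℤ) : ZMod M)

theorem cls_rep [NeZero M] (x : Tor d M) : cls M (rep x) = x := by
  funext i
  exact ZMod.coe_valMinAbs (x i)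

theorem exists_k {d : ℕ} (hd : 1 ≤ d) {lam : ℝ} (h0 : 0 < lam) (h1 : lam ≤ 1) :
    ∃ k : ℕ, 1 ≤ k ∧ 26 * (d : ℝ) ≤ lam * (k : ℝ) ^ 2 ∧ lam * (k : ℝ) ^ 2 ≤ 104 * d := by
  have hd' : (1 : ℝ) ≤ d := by exact_mod_cast hd
  set t : ℝ := Real.sqrt (26 * d / lam) with ht
  have hfrac : 1 ≤ 26 * (d : ℝ) / lam := by
    rw [le_div_iff₀ h0]; linarith
  have ht1 : 1 ≤ t := by
    rw [ht]
    exact Real.one_le_sqrt.2 hfrac
  have htsq : lam * t ^ 2 = 26 * d := by
    rw [ht, Real.sq_sqrt (by positivity)]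
    field_simp
  refine ⟨⌈t⌉₊, ?_, ?_, ?_⟩
  · exact Nat.one_le_ceil_iff.2 (by linarith)
  · rw [← htsq]
    refine mul_le_mul_of_nonneg_left ?_ h0.le
    exact pow_le_pow_left₀ (by linarith) (Nat.le_ceil t) 2
  · have h2 : (⌈t⌉₊ : ℝ) ≤ 2 * t := by
      have := (Nat.ceil_lt_add_one (by linarith : 0 ≤ t)).le
      linarith
    calc lam * (⌈t⌉₊ : ℝ) ^ 2 ≤ lam * (2 * t) ^ 2 := by
          refine mul_le_mul_of_nonneg_left ?_ h0.le
          exact pow_le_pow_left₀ (by positivity) h2 2
      _ = 4 * (lam * t ^ 2) := by ring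
      _ = _ := by rw [htsq]; ring

/-- Module COUNT. -/
theorem count (hmm : MinmaxStmt) : CountStmt := by
  intro d hd
  have hd' : (1 : ℝ) ≤ d := by exact_mod_cast hd
  have hC1 : (1 : ℝ) ≤ 1664 * d := by linarith
  refine ⟨(1664 * d) ^ d, by positivity, ?_⟩
  intro M _ r hr z μ W hμ hflat x₀ L hL hH lam h10 hlam1 hCL
  have hlam : 10 ≤ lam * μ := by
    rw [div_le_iff₀ hμ] at h10
    exact h10
  have hlam0 : 0 < lam := by
    by_contra hcon
    have : lam * μ ≤ 0 := mul_nonpos_of_nonpos_of_nonneg (not_lt.1 hcon) hμ.le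
    linarith
  obtain ⟨k, hk1, hklo, hkhi⟩ := exists_k hd hlam0 hlam1
  have hCd : 1664 * (d : ℝ) ≤ (1664 * d) ^ d := by
    calc 1664 * (d : ℝ) = (1664 * d) ^ 1 := by ring
      _ ≤ _ := pow_le_pow_right₀ hC1 hd
  -- `4 k ≤ L`
  have h4k : 4 * k ≤ L := by
    have h1 : lam * (4 * (k : ℝ)) ^ 2 ≤ lam * (L : ℝ) ^ 2 := by
      calc lam * (4 * (k : ℝ)) ^ 2 = 16 * (lam * (k : ℝ) ^ 2) := by ring
        _ ≤ 16 * (104 * (d : ℝ)) := by linarith
        _ = 1664 * (d : ℝ) := by ring
        _ ≤ _ := hCd.trans hCL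
    have h2 : (4 * (k : ℝ)) ^ 2 ≤ (L : ℝ) ^ 2 := le_of_mul_le_mul_left h1 hlam0
    have h3 : 4 * (k : ℝ) ≤ L := le_of_sq_le_sq h2 (by positivity)
    exact_mod_cast h3
  set Λ := box x₀ L with hΛdef
  set N : ℕ := (L + 1 - k) / (2 * k) with hN
  have hN1 : 2 * k * N + k ≤ L + 1 := by
    have := Nat.div_mul_le_self (L + 1 - k) (2 * k)
    have h2 : 2 * k * N ≤ L + 1 - k := by rw [hN]; linarith
    omega
  have hN2 : L + 2 ≤ 2 * k * N + 3 * k := by
    have h1 := Nat.lt_div_mul_add (a := L + 1 - k) (b := 2 * k) (by omega)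
    have h2 : (L + 1 - k) < 2 * k * N + 2 * k := by
      calc (L + 1 - k) < (L + 1 - k) / (2 * k) * (2 * k) + 2 * k := h1
        _ = _ := by rw [hN]; ring
    omega
  -- centres
  set cen : Site d → Site d := fun n i => x₀ i + 2 * k * n i with hcen
  set V : Tor d M → ℝ := fun x => W (rep x) with hV
  have hcenb : ∀ n ∈ box (0 : Site d) N, ∀ i, |cen n i - x₀ i| + k ≤ L + 1 := by
    intro n hn i
    rw [mem_box, sd_comm] at hn
    have h1 := sd_le_iff.1 hn i
    simp only [Pi.zero_apply, sub_zero] at h1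
    have e : cen n i - x₀ i = (2 * k) * n i := by rw [hcen]; ring
    rw [e, abs_mul, abs_of_nonneg (by positivity : (0 : ℤ) ≤ 2 * k)]
    have h2 : (2 * (k : ℤ)) * |n i| ≤ 2 * k * N := mul_le_mul_of_nonneg_left h1 (by positivity)
    have h3 : (2 * (k : ℤ) * N + k) ≤ L + 1 := by exact_mod_cast hN1
    linarith
  have hrM : (4 * (r : ℤ) + 3) ≤ M := by exact_mod_cast hr
  have hxr : ∀ i, |x₀ i| + L ≤ r := fun i => hL i
  have hL4 : (4 * (k : ℤ)) ≤ L := by exact_mod_cast h4k
  have hk1' : (1 : ℤ) ≤ k := by exact_mod_cast hk1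
  have hcenr : ∀ n ∈ box (0 : Site d) N, ∀ i, 2 * (|cen n i| + k + 1) < (M : ℤ) := by
    intro n hn i
    have h1 := hcenb n hn i
    have h2 := hxr i
    have h3 : |cen n i| ≤ |x₀ i| + |cen n i - x₀ i| := by
      calc |cen n i| = |x₀ i + (cen n i - x₀ i)| := by ring_nf
        _ ≤ _ := abs_add_le _ _
    have h4 := abs_nonneg (x₀ i)
    linarith
  have hΛr : ∀ y ∈ Λ, ∀ i, 2 * (|y i| + 1) < (M : ℤ) := by
    intro y hy i
    rw [hΛdef, mem_box, sd_comm] at hy
    have h1 := sd_le_iff.1 hy i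
    have h2 := hxr i
    have h3 : |y i| ≤ |x₀ i| + |y i - x₀ i| := by
      calc |y i| = |x₀ i + (y i - x₀ i)| := by ring_nf
        _ ≤ _ := abs_add_le _ _
    linarith
  have hsupp : ∀ n ∈ box (0 : Site d) N, ∀ y, chi k (cen n) y ≠ 0 → y ∈ Λ := by
    intro n hn y hy
    rw [hΛdef, mem_box, sd_comm, sd_le_iff]
    intro i
    have h1 := lt_of_chi hy i
    have h2 := hcenb n hn i
    have h3 : |y i - x₀ i| ≤ |y i - cen n i| + |cen n i - x₀ i| := by
      calc |y i - x₀ i| = |(y i - cen n i) + (cen n i - x₀ i)| := by ring_nf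
        _ ≤ _ := abs_add_le _ _
    have h4 : |y i - cen n i| + 1 ≤ k := h1
    linarith
  -- separation
  have hsep : ∀ n n' : Site d, n ≠ n' → ∀ y w, chi k (cen n) y ≠ 0 → chi k (cen n') w ≠ 0 →
      2 ≤ sd y w := by
    intro n n' hnn y w hy hw
    by_contra hcon
    apply hnn
    funext i
    have h0 : sd y w ≤ 1 := by omega
    have h1 := lt_of_chi hy i
    have h2 := lt_of_chi hw i
    have h3 := sd_le_iff.1 h0 i
    push_cast at h3
    by_contra hni
    have h4 : 1 ≤ |n i - n' i| := Int.one_le_abs (sub_ne_zero.2 hni)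
    have h5 : cen n i - cen n' i = (2 * k) * (n i - n' i) := by rw [hcen]; ring
    have h6 : (2 * (k : ℤ)) ≤ |cen n i - cen n' i| := by
      rw [h5, abs_mul, abs_of_nonneg (by positivity : (0 : ℤ) ≤ 2 * k)]
      nlinarith
    have h7 : |cen n i - cen n' i| ≤ |y i - cen n i| + |y i - w i| + |w i - cen n' i| := by
      calc |cen n i - cen n' i| = |(-(y i - cen n i)) + (y i - w i) + (w i - cen n' i)| := by
            ring_nf
        _ ≤ |(-(y i - cen n i)) + (y i - w i)| + |w i - cen n' i| := abs_add_le _ _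
        _ ≤ |(-(y i - cen n i))| + |y i - w i| + |w i - cen n' i| := by
            have := abs_add_le (-(y i - cen n i)) (y i - w i)
            linarith
        _ = _ := by rw [abs_neg]
    have h8 : |y i - cen n i| + 1 ≤ k := h1
    have h9 : |w i - cen n' i| + 1 ≤ k := h2
    linarith
  -- test functions
  set F : Site d → Site d → ℝ := fun n y => DD z V (cls M y) * chi k (cen n) y with hF
  have hFchi : ∀ n y, F n y ≠ 0 → chi k (cen n) y ≠ 0 := by
    intro n y h h0
    apply h
    rw [hF]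
    simp only [h0, mul_zero]
  have hF0 : ∀ n ∈ box (0 : Site d) N, ∀ y, y ∉ Λ → F n y = 0 := by
    intro n hn y hy
    by_contra hne
    exact hy (hsupp n hn y (hFchi n y hne))
  have hFrep : ∀ n (x : Tor d M), F n (rep x) = DD z V x * chi k (cen n) (rep x) := by
    intro n x
    rw [hF]
    simp only [cls_rep]
  have hHM : ∀ (g : Site d → ℝ) (y : Λ), (HM W Λ *ᵥ fun w : Λ => g w) y =
      ∑ w ∈ Λ, hop (y : Site d) w * g w + W y * g y := by
    intro g y
    unfold HM
    simp only [Matrix.mulVec, dotProduct, Matrix.of_apply, add_mul, Finset.sum_add_distrib]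
    congr 1
    · rw [← Finset.sum_coe_sort Λ]
    · simp
  classical
  set I := (box (0 : Site d) N) with hI
  have hcard : Fintype.card I = (2 * N + 1) ^ d := by
    rw [Fintype.card_coe, hI, card_box]
  let e : Fin ((2 * N + 1) ^ d) ≃ I := (Fintype.equivFinOfCardEq hcard).symm
  have hmain := hmm Λ (HM W Λ) hH (z - lam) ((2 * N + 1) ^ d)
    (fun j y => F (e j : Site d) (y : Site d)) ?_ ?_ ?_ ?_
  · -- the final computation
    have hcount : ((2 * (N : ℝ) + 1)) ^ d ≤
        ((Finset.univ.filter fun i => z - lam ≤ hH.eigenvalues i).card : ℝ) := by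
      exact_mod_cast hmain
    have hq : lam ^ ((d : ℝ) / 2) = (Real.sqrt lam) ^ d := by
      rw [Real.sqrt_eq_rpow, ← Real.rpow_natCast, ← Real.rpow_mul hlam0.le]
      congr 1
      ring
    rw [hq, ← mul_pow]
    have hs0 : 0 ≤ Real.sqrt lam := Real.sqrt_nonneg _
    have h1 : Real.sqrt lam * (4 * k) ≤ 1664 * d := by
      have h2 : (Real.sqrt lam * (4 * k)) ^ 2 ≤ (1664 * (d : ℝ)) ^ 2 := by
        calc (Real.sqrt lam * (4 * k)) ^ 2 = 16 * ((Real.sqrt lam) ^ 2 * (k : ℝ) ^ 2) := by ring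
          _ = 16 * (lam * (k : ℝ) ^ 2) := by rw [Real.sq_sqrt hlam0.le]
          _ ≤ 16 * (104 * d) := by linarith
          _ = 1664 * d := by ring
          _ ≤ (1664 * (d : ℝ)) ^ 2 := by nlinarith
      exact le_of_sq_le_sq h2 (by positivity)
    have h3 : (2 * (L : ℝ) + 1) ≤ 4 * k * (2 * N + 1) := by
      have h4 : 2 * L + 1 ≤ 4 * k * (2 * N + 1) := by
        have e1 : 4 * k * (2 * N + 1) = 4 * (2 * k * N) + 4 * k := by ring
        rw [e1]
        generalize 2 * k * N = t at hN2 hN1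
        omega
      exact_mod_cast h4
    have h5 : Real.sqrt lam * (2 * (L : ℝ) + 1) ≤ 1664 * d * (2 * N + 1) := by
      calc Real.sqrt lam * (2 * (L : ℝ) + 1) ≤ Real.sqrt lam * (4 * k * (2 * N + 1)) :=
            mul_le_mul_of_nonneg_left h3 hs0
        _ = (Real.sqrt lam * (4 * k)) * (2 * N + 1) := by ring
        _ ≤ _ := mul_le_mul_of_nonneg_right h1 (by positivity)
    calc (Real.sqrt lam * (2 * (L : ℝ) + 1)) ^ d ≤ (1664 * d * (2 * N + 1)) ^ d :=
          pow_le_pow_left₀ (by positivity) h5 d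
      _ = (1664 * (d : ℝ)) ^ d * (2 * N + 1) ^ d := by rw [mul_pow]
      _ ≤ _ := mul_le_mul_of_nonneg_left hcount (by positivity)
  · -- nonzero
    intro j h0
    have hj := (e j).2
    have hc := chi_self hk1 (cen (e j))
    have hmem : cen (e j) ∈ Λ := hsupp _ hj _ hc
    have := congrFun h0 ⟨_, hmem⟩
    simp only [hF, Pi.zero_apply] at this
    rcases mul_eq_zero.1 this with h | h
    · exact (DD_pos hflat.2.1 _).ne' h
    · exact hc h
  · intro j j' hjj y
    by_contra hne
    have h1 := left_ne_zero_of_mul hne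
    have h2 := right_ne_zero_of_mul hne
    have hne' : (e j : Site d) ≠ e j' := fun h => hjj (e.injective (Subtype.ext h))
    have h3 := hsep _ _ hne' _ _ (hFchi _ _ h1) (hFchi _ _ h2)
    rw [sd_self] at h3
    omega
  · intro j j' hjj
    have hne' : (e j : Site d) ≠ e j' := fun h => hjj (e.injective (Subtype.ext h))
    refine Finset.sum_eq_zero fun y _ => ?_
    by_cases h1 : F (e j : Site d) (y : Site d) = 0
    · rw [h1, zero_mul]
    · rw [hHM (F (e j')) y]
      have h2 : F (e j') (y : Site d) = 0 := by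
        by_contra h2
        have h3 := hsep _ _ hne' _ _ (hFchi _ _ h1) (hFchi _ _ h2)
        rw [sd_self] at h3
        omega
      have h3 : ∑ w ∈ Λ, hop (y : Site d) w * F (e j') w = 0 := by
        refine Finset.sum_eq_zero fun w _ => ?_
        by_contra h4
        have h5 := sd_of_hop (left_ne_zero_of_mul h4)
        have h6 := hsep _ _ hne' _ _ (hFchi _ _ h1) (hFchi _ _ (right_ne_zero_of_mul h4))
        omega
      rw [h2, h3]
      ring
  · intro j
    have hj := (e j).2
    set n : Site d := (e j : Site d) with hn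
    have h1 := form_test (M := M) k hk1 (cen n) (hcenr n hj) hμ hflat h10 hklo
    have h2 := quad_torus (M := M) z W Λ hΛr (F n) (hF0 n hj)
    simp only [hFrep] at h2
    rw [h2] at h1
    have h3 : ∑ x : Tor d M, (DD z V x * chi k (cen n) (rep x)) ^ 2 = ∑ y ∈ Λ, F n y ^ 2 := by
      have := sum_rep (M := M) Λ (fun y hy i => by have := hΛr y hy i; linarith)
        (fun y => F n y ^ 2) (fun y hy => by simp [hF0 n hj y hy])
      rw [← this]
      refine Finset.sum_congr rfl fun x _ => ?_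
      simp only [hFrep]
    rw [h3] at h1
    have h4 : ∑ y : Λ, F n y * (HM W Λ *ᵥ fun w : Λ => F n w) y =
        ∑ y ∈ Λ, F n y * (∑ w ∈ Λ, hop (y : Site d) w * F n w + W y * F n y) := by
      rw [← Finset.sum_coe_sort Λ]
      refine Finset.sum_congr rfl fun y _ => ?_
      rw [hHM (F n) y]
    have h5 : ∑ y : Λ, F n y ^ 2 = ∑ y ∈ Λ, F n y ^ 2 :=
      Finset.sum_coe_sort Λ (fun y => F n y ^ 2)
    rw [h4, h5]
    have h6 : ∑ y ∈ Λ, F n y * ((z - W y) * F n y - ∑ w ∈ Λ, hop y w * F n w) =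
        z * ∑ y ∈ Λ, F n y ^ 2 -
          ∑ y ∈ Λ, F n y * (∑ w ∈ Λ, hop (y : Site d) w * F n w + W y * F n y) := by
      rw [Finset.mul_sum, ← Finset.sum_sub_distrib]
      refine Finset.sum_congr rfl fun y _ => ?_
      ring
    rw [h6] at h1
    linarith

end Pool.Agent.BED.H73
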