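import Pool.Agent.Helper54_BED.Stmt

/-!
# Band edge delocalization: module EDGE (no eigenvalues beyond `z` in boxes)
-/

set_option autoImplicit false

open scoped BigOperators

noncomputable section

namespace Pool.Agent.BED.H73

open Matrix Pool.Agent.Anderson Pool.Agent.Loc Pool.Agent.BED

variable {d M : ℕ}

theorem rep_inj : Function.Injective (rep : Tor d M → Site d) := by
  intro x y h
  funext i
  have := congrFun h i
  exact (ZMod.valMinAbs_inj).1 this

theorem rep_coe [NeZero M] (y : Site d) (hy : ∀ i, 2 * |y i| < M) :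
    rep (fun i => ((y i : ℤ) : ZMod M)) = y := by
  funext i
  unfold rep
  rw [ZMod.valMinAbs_spec]
  refine ⟨rfl, ?_⟩
  have := hy i
  constructor
  · have := neg_abs_le (y i)
    linarith
  · have := le_abs_self (y i)
    linarith

theorem rep_add_ev [NeZero M] (x : Tor d M) (hx : ∀ i, 2 * (|rep x i| + 1) < M) (i : Fin d) :
    rep (x + ev i) = rep x + Pi.single i 1 := by
  funext j
  have hj := hx j
  change (x j + (ev i : Tor d M) j).valMinAbs = (x j).valMinAbs + (Pi.single i 1 : Site d) j
  change 2 * (|(x j).valMinAbs| + 1) < (M : ℤ) at hj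
  by_cases h : j = i
  · subst h
    have e1 : (ev j : Tor d M) j = 1 := by unfold ev; simp
    rw [e1, Pi.single_eq_same, ZMod.valMinAbs_spec]
    refine ⟨by push_cast; simp, ?_⟩
    have h1 := neg_abs_le (x j).valMinAbs
    have h2 := le_abs_self (x j).valMinAbs
    constructor <;> linarith
  · have e1 : (ev i : Tor d M) j = 0 := by unfold ev; rw [Pi.single_eq_of_ne h]
    rw [e1, Pi.single_eq_of_ne h, add_zero, add_zero]

theorem rep_sub_ev [NeZero M] (x : Tor d M) (hx : ∀ i, 2 * (|rep x i| + 1) < M) (i : Fin d) :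
    rep (x - ev i) = rep x - Pi.single i 1 := by
  funext j
  have hj := hx j
  change (x j - (ev i : Tor d M) j).valMinAbs = (x j).valMinAbs - (Pi.single i 1 : Site d) j
  change 2 * (|(x j).valMinAbs| + 1) < (M : ℤ) at hj
  by_cases h : j = i
  · subst h
    have e1 : (ev j : Tor d M) j = 1 := by unfold ev; simp
    rw [e1, Pi.single_eq_same, ZMod.valMinAbs_spec]
    refine ⟨by push_cast; simp, ?_⟩
    have h1 := neg_abs_le (x j).valMinAbs
    have h2 := le_abs_self (x j).valMinAbs
    constructor <;> linarith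
  · have e1 : (ev i : Tor d M) j = 0 := by unfold ev; rw [Pi.single_eq_of_ne h]
    rw [e1, Pi.single_eq_of_ne h, sub_zero, sub_zero]

/-- The sum over the neighbours of a function supported in `Λ`. -/
theorem sum_nb (Λ : Finset (Site d)) (F : Site d → ℝ) (hF : ∀ y, y ∉ Λ → F y = 0) (y : Site d) :
    ∑ i : Fin d, (F (y + Pi.single i 1) + F (y - Pi.single i 1)) = ∑ w ∈ Λ, hop y w * F w := by
  have h := sum_hop y (box y 1 ∪ Λ) Finset.subset_union_left F
  simp only [smul_eq_mul] at h
  rw [← h]
  symm
  refine Finset.sum_subset Finset.subset_union_right fun w _ hw => ?_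
  rw [hF w hw, mul_zero]

/-- The quadratic form on the torus for a function supported in a small set. -/
theorem quad_torus [NeZero M] (z : ℝ) (U : Site d → ℝ) (Λ : Finset (Site d))
    (hΛ : ∀ y ∈ Λ, ∀ i, 2 * (|y i| + 1) < (M : ℤ)) (F : Site d → ℝ)
    (hF : ∀ y, y ∉ Λ → F y = 0) :
    ∑ x : Tor d M, F (rep x) * (AM z (fun x => U (rep x)) *ᵥ fun x => F (rep x)) x =
      ∑ y ∈ Λ, F y * ((z - U y) * F y - ∑ w ∈ Λ, hop y w * F w) := by
  set G : Site d → ℝ := fun y => F y * ((z - U y) * F y - ∑ w ∈ Λ, hop y w * F w) with hG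
  have h1 : ∀ x : Tor d M,
      F (rep x) * (AM z (fun x => U (rep x)) *ᵥ fun x => F (rep x)) x = G (rep x) := by
    intro x
    by_cases hx : rep x ∈ Λ
    · have hb := hΛ _ hx
      rw [AM_mulVec, hG]
      simp only
      rw [← sum_nb Λ F hF (rep x)]
      simp only [rep_add_ev x hb, rep_sub_ev x hb]
    · rw [hG]
      simp only [hF _ hx, zero_mul]
  simp only [h1]
  have h2 : ∑ x : Tor d M, G (rep x) = ∑ y ∈ Finset.univ.image (rep : Tor d M → Site d), G y := by
    rw [Finset.sum_image (fun x _ y _ h => rep_inj h)]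
  rw [h2]
  symm
  refine Finset.sum_subset (fun y hy => ?_) fun y _ hy => ?_
  · rw [Finset.mem_image]
    refine ⟨fun i => ((y i : ℤ) : ZMod M), Finset.mem_univ _, rep_coe y fun i => ?_⟩
    have := hΛ y hy i
    linarith
  · change F y * _ = 0
    rw [hF _ hy, zero_mul]

/-- Signs. -/
def sg (y : Site d) : ℝ := if Even (∑ i, y i) then 1 else -1

theorem sg_sq (y : Site d) : sg y * sg y = 1 := by
  unfold sg; split_ifs <;> norm_num

theorem sum_single_add (y : Site d) (i : Fin d) (t : ℤ) :
    ∑ j, (y + Pi.single i t : Site d) j = ∑ j, y j + t := by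
  simp [Finset.sum_add_distrib]

theorem hop_sg (y w : Site d) : hop y w * sg w = - (hop y w * sg y) := by
  unfold hop
  rw [Finset.sum_mul, Finset.sum_mul, ← Finset.sum_neg_distrib]
  refine Finset.sum_congr rfl fun i _ => ?_
  have key : ∀ t : ℤ, (t = 1 ∨ t = -1) → w = y + Pi.single i t → sg w = - sg y := by
    intro t ht h
    unfold sg
    rw [h, sum_single_add]
    rcases ht with ht | ht <;> rw [ht]
    · by_cases he : Even (∑ j, y j)
      · rw [if_pos he, if_neg]
        rw [Int.even_add_one, not_not]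
        exact he
      · rw [if_neg he, if_pos]
        · ring
        · rw [Int.even_add_one]; exact he
    · by_cases he : Even (∑ j, y j)
      · rw [if_pos he, if_neg]
        rw [← sub_eq_add_neg, Int.even_sub_one, not_not]
        exact he
      · rw [if_neg he, if_pos]
        · ring
        · rw [← sub_eq_add_neg, Int.even_sub_one]; exact he
  have e1 : (if w = y + Pi.single i 1 then (1 : ℝ) else 0) * sg w =
      - ((if w = y + Pi.single i 1 then (1 : ℝ) else 0) * sg y) := by
    split_ifs with h
    · rw [key 1 (Or.inl rfl) h]; ring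
    · ring
  have e2 : (if w = y - Pi.single i 1 then (1 : ℝ) else 0) * sg w =
      - ((if w = y - Pi.single i 1 then (1 : ℝ) else 0) * sg y) := by
    split_ifs with h
    · rw [key (-1) (Or.inr rfl) (by rw [h, sub_eq_add_neg, Pi.single_neg])]; ring
    · ring
  rw [add_mul, e1, e2, add_mul]; ring

/-- Module EDGE. -/
theorem edge : EdgeStmt := by
  intro d M _ _ r hr z μ W _ x₀ L hL hH
  set Λ := box x₀ L with hΛdef
  have hΛ : ∀ y ∈ Λ, ∀ i, 2 * (|y i| + 1) < (M : ℤ) := by
    intro y hy i
    rw [hΛdef, mem_box] at hy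
    have h1 := sd_le_iff.1 hy i
    have h2 := hL i
    have h3 : |y i| ≤ |x₀ i| + |x₀ i - y i| := by
      calc |y i| = |x₀ i - (x₀ i - y i)| := by ring_nf
        _ ≤ |x₀ i| + |x₀ i - y i| := abs_sub _ _
    have h4 : (4 * (r : ℤ) + 3) ≤ M := by exact_mod_cast hr
    linarith
  have key : ∀ (v : Λ → ℝ) (E : ℝ), v ≠ 0 → HM W Λ *ᵥ v = E • v → ∀ (U : Site d → ℝ)
      (s : Site d → ℝ) (δ : ℝ), (∀ y, s y * s y = 1) → (∀ y, U y = δ * W y) →
      (∀ y w, hop y w * s w = δ * (hop y w * s y)) → δ * δ = 1 →
      (AM z (fun x : Tor d M => U (rep x))).PosDef → 0 < z - δ * E := by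
    intro v E hv hE U s δ hs hU hhop hδ hP
    classical
    set F : Site d → ℝ := fun y => if h : y ∈ Λ then s y * v ⟨y, h⟩ else 0 with hFdef
    have hF : ∀ y, y ∉ Λ → F y = 0 := fun y hy => by rw [hFdef]; simp only [dif_neg hy]
    have hF1 : ∀ y : Λ, F y = s y * v y := fun y => by
      rw [hFdef]; simp only [dif_pos y.2]
    have hq := quad_torus (M := M) z U Λ hΛ F hF
    have hrhs : ∑ y ∈ Λ, F y * ((z - U y) * F y - ∑ w ∈ Λ, hop y w * F w) =
        (z - δ * E) * ∑ y : Λ, v y ^ 2 := by
      rw [← Finset.sum_coe_sort Λ, Finset.mul_sum]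
      refine Finset.sum_congr rfl fun y _ => ?_
      have hE' := congrFun hE y
      have h1 : ∑ w ∈ Λ, hop (y : Site d) w * F w = δ * s y * ∑ w : Λ, hop (y : Site d) w * v w := by
        rw [← Finset.sum_coe_sort Λ, Finset.mul_sum]
        refine Finset.sum_congr rfl fun w _ => ?_
        rw [hF1]
        calc hop (y : Site d) w * (s w * v w) = (hop (y : Site d) w * s w) * v w := by ring
          _ = _ := by rw [hhop]; ring
      have h2 : (HM W Λ *ᵥ v) y = ∑ w : Λ, hop (y : Site d) w * v w + W y * v y := by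
        unfold HM
        simp only [Matrix.mulVec, dotProduct, Matrix.of_apply, add_mul, Finset.sum_add_distrib]
        congr 1
        simp
      have h3 : ∑ w : Λ, hop (y : Site d) w * v w = E * v y - W y * v y := by
        rw [h2] at hE'
        simp only [Pi.smul_apply, smul_eq_mul] at hE'
        linarith
      rw [h1, h3, hF1, hU]
      have h4 := hs y
      calc s y * v y * ((z - δ * W y) * (s y * v y) - δ * s y * (E * v y - W y * v y))
          = (s y * s y) * ((z - δ * E) * v y ^ 2) := by ring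
        _ = (z - δ * E) * v y ^ 2 := by rw [h4, one_mul]
    have hne : (fun x : Tor d M => F (rep x)) ≠ 0 := by
      obtain ⟨y, hy⟩ := Function.ne_iff.1 hv
      intro h0
      have := congrFun h0 (fun i => (((y : Site d) i : ℤ) : ZMod M))
      simp only [Pi.zero_apply] at this
      rw [rep_coe (y : Site d) (fun i => by have := hΛ y y.2 i; linarith), hF1] at this
      rcases mul_eq_zero.1 this with h | h
      · have h4 := hs y
        rw [h] at h4
        norm_num at h4
      · exact hy h
    have hpos := pos_of_posDef hP hne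
    rw [hq, hrhs] at hpos
    have hsum : 0 ≤ ∑ y : Λ, v y ^ 2 := Finset.sum_nonneg fun y _ => sq_nonneg _
    by_contra hcon
    have : (z - δ * E) * ∑ y : Λ, v y ^ 2 ≤ 0 :=
      mul_nonpos_of_nonpos_of_nonneg (not_lt.1 hcon) hsum
    linarith
  have hev : ∀ i, HM W Λ *ᵥ (hH.eigenvectorBasis i : Λ → ℝ) =
      hH.eigenvalues i • (hH.eigenvectorBasis i : Λ → ℝ) := fun i =>
    hH.mulVec_eigenvectorBasis i
  have hev0 : ∀ i, (hH.eigenvectorBasis i : Λ → ℝ) ≠ 0 := by
    intro i h0
    have h1 : hH.eigenvectorBasis i ≠ 0 := by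
      intro h
      have := hH.eigenvectorBasis.orthonormal.1 i
      rw [h, norm_zero] at this
      exact zero_ne_one this
    apply h1
    ext y
    exact congrFun h0 y
  constructor
  · intro hflat i
    have := key _ _ (hev0 i) (hev i) W (fun _ => 1) 1 (fun _ => by norm_num) (fun _ => by ring)
      (fun _ _ => by ring) (by norm_num) hflat.2.1
    linarith
  · intro hflat i
    have := key _ _ (hev0 i) (hev i) (fun y => - W y) sg (-1) sg_sq (fun _ => by ring)
      (fun y w => by rw [hop_sg]; ring) (by norm_num) hflat.2.1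
    linarith

end Pool.Agent.BED.H73
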