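import Pool.Agent.Helper54_BED.Stmt

/-!
# Band edge delocalization: module STEPD (the deterministic step)
-/

set_option autoImplicit false

open scoped BigOperators

noncomputable section

namespace Pool.Agent.BED.H73

open Matrix Pool.Agent.BED

theorem AM_sub_mulVec {d M : ℕ} [NeZero M] (z h : ℝ) (V f : Tor d M → ℝ) (x : Tor d M) :
    (AM (z - h) V *ᵥ f) x = (AM z V *ᵥ f) x - h * f x := by
  rw [AM_mulVec, AM_mulVec]; ring

/-- Module STEPD. -/
theorem stepD : StepStmt := by
  intro d M _ z μ V hμ hA hD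
  set h : ℝ := 1 / (10 * μ) with hh
  have hhμ : h * μ = 1 / 10 := by
    rw [hh]; field_simp
  have hhpos : 0 < h := by rw [hh]; positivity
  set D := DD z V with hDdef
  have hlo : ∀ x, 0.98 * μ ≤ D x := fun x => by
    have := (abs_le.1 (hD x)).1
    linarith
  have hhi : ∀ x, D x ≤ 1.02 * μ := fun x => by
    have := (abs_le.1 (hD x)).2
    linarith
  have hAD : ∀ x, (AM (z - h) V *ᵥ D) x = 1 - h * D x := fun x => by
    rw [AM_sub_mulVec, hDdef, AM_DD hA, Pi.one_apply]
  have hhDlo : ∀ x, 0.098 ≤ h * D x := fun x => by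
    have := mul_le_mul_of_nonneg_left (hlo x) hhpos.le
    nlinarith
  have hhDhi : ∀ x, h * D x ≤ 0.102 := fun x => by
    have := mul_le_mul_of_nonneg_left (hhi x) hhpos.le
    nlinarith
  have hDpos : ∀ x, 0 < D x := fun x => lt_of_lt_of_le (by positivity) (hlo x)
  have hA' : (AM (z - h) V).PosDef := AM_posDef_of_super hDpos fun x => by
    rw [hAD]; linarith [hhDhi x]
  refine ⟨hA', fun x => ⟨?_, ?_⟩⟩
  · have h1 := AM_le_of hA' (u := (1 / 0.902 : ℝ) • D) (v := DD (z - h) V) (fun y => by
      rw [Matrix.mulVec_smul, AM_DD hA', Pi.smul_apply, Pi.one_apply, hAD, smul_eq_mul]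
      have := hhDlo y
      linarith) x
    rw [Pi.smul_apply, smul_eq_mul] at h1
    have := hlo x
    linarith
  · have h1 := AM_le_of hA' (u := DD (z - h) V) (v := (1 / 0.898 : ℝ) • D) (fun y => by
      rw [Matrix.mulVec_smul, AM_DD hA', Pi.smul_apply, Pi.one_apply, hAD, smul_eq_mul]
      have := hhDhi y
      linarith) x
    rw [Pi.smul_apply, smul_eq_mul] at h1
    have := hhi x
    linarith

end Pool.Agent.BED.H73
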